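import Pool.Agent.Lib.MP_5a182c_lc.Model2

/-!
MP_5a182c_lc: there is a model of WKL_0 + CRT^2_2 in which COH fails, even for finitely many sets.
-/

namespace Pool.Agent.Results.MP_5a182c_lc.SeparationWKL

open Pool.Agent.Lib.MP_5a182c_lc

theorem result : ∃ A : Str, RCA0 A ∧ WKL A ∧ CRT22 A ∧ ¬ FinCOH A ∧ ¬ COH A :=
  ⟨AA, AA_rca, AA_wkl, AA_crt, AA_not_fincoh, AA_not_coh⟩

end Pool.Agent.Results.MP_5a182c_lc.SeparationWKL
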